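import Pool.Agent.W_MP_654ec6.F.Amb
import Pool.Agent.W_MP_654ec6_h2.GDefs

/-!
# Part G: the domains of the ambient patches in the two descriptions (parts F and G)
-/

open scoped ContDiff Topology
open Filter Real

namespace Pool.Agent.W_MP_654ec6

theorem midY_eq {N : ℕ∞} (hN : 1 ≤ N) (hN' : N ≠ ⊤) : GG N 0 = midY N := by
  obtain ⟨n, rfl⟩ := ENat.ne_top_iff_exists.1 hN'
  have hn : 1 ≤ n := by exact_mod_cast hN
  unfold midY
  rw [ENat.toNat_natCast]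
  exact GG_mid hn (by rw [abs_zero]; exact (zz_pos n).le)

theorem va_mem {N : ℕ∞} {ρ : ℕ → ℝ} (hN : 1 ≤ N) (hρ : ∀ k, 0 ≤ ρ k) {j : ℕ}
    (hj : (j : ℕ∞) ≤ N) (u : E4) :
    u ∈ VA N ρ j ↔ u ∈ Pool.Agent.W_MP_654ec6_h2.VA N ρ j := by
  have h1 : ∀ (r x : ℝ), 0 ≤ r → (r ^ 2 < x ↔ r < √x) := fun r x hr => (Real.lt_sqrt hr).symm
  constructor
  · rintro ⟨-, h2, h3, h4⟩
    refine ⟨h2, fun k hk hkN => (h1 _ _ (hρ k)).1 (h3 k hk hkN), fun hN' => ?_⟩
    rw [midY_eq hN hN']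
    exact (h1 _ _ (hρ 0)).1 (h4 hN')
  · rintro ⟨h2, h3, h4⟩
    refine ⟨hj, h2, fun k hk hkN => (h1 _ _ (hρ k)).2 (h3 k hk hkN), fun hN' => ?_⟩
    have h5 := h4 hN'
    rw [midY_eq hN hN'] at h5
    exact (h1 _ _ (hρ 0)).2 h5

theorem va_eq {N : ℕ∞} {ρ : ℕ → ℝ} (hN : 1 ≤ N) (hρ : ∀ k, 0 ≤ ρ k) {j : ℕ}
    (hj : (j : ℕ∞) ≤ N) : VA N ρ j = Pool.Agent.W_MP_654ec6_h2.VA N ρ j :=
  Set.ext fun u => va_mem hN hρ hj u

/-- `|X|, |X'|` and the directions: `SamePt` in terms of the points of the half plane. -/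
theorem dir3_eq (u : E4) (k : Fin 3) : Pool.Agent.W_MP_654ec6_h2.dir3 u k = u k.succ / n3 u := by
  unfold Pool.Agent.W_MP_654ec6_h2.dir3
  rw [Pool.Agent.W_MP_654ec6_h2.n3_eq]
  have h : Pool.Agent.W_MP_654ec6_h2.tl u k = u k.succ := by
    fin_cases k <;> rfl
  rw [PiLp.smul_apply, h, smul_eq_mul, div_eq_inv_mul]

theorem dir3_eq_iff (u v : E4) : Pool.Agent.W_MP_654ec6_h2.dir3 u =
    Pool.Agent.W_MP_654ec6_h2.dir3 v ↔ ∀ k : Fin 3, u k.succ / n3 u = v k.succ / n3 v := by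
  constructor
  · intro h k
    rw [← dir3_eq, ← dir3_eq, h]
  · intro h
    ext k
    rw [dir3_eq, dir3_eq, h]

theorem dir3_eq_neg_iff (u v : E4) : Pool.Agent.W_MP_654ec6_h2.dir3 u =
    -Pool.Agent.W_MP_654ec6_h2.dir3 v ↔ ∀ k : Fin 3, u k.succ / n3 u = -(v k.succ / n3 v) := by
  constructor
  · intro h k
    rw [← dir3_eq, ← dir3_eq, h]
    rfl
  · intro h
    ext k
    rw [dir3_eq, h, ← dir3_eq]
    rfl

/-- The points represented by two labels of the ambient patches coincide iff `SamePt`. -/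
theorem samePt_iff {R : ℝ} {N : ℕ∞} {ρ : ℕ → ℝ} (hR : 0 < R) (hN : 1 ≤ N) {i j : ℕ} {a b : E4}
    (ha : a ∈ VA N ρ i) (hb : b ∈ VA N ρ j) :
    TauPt.mk (repA R N i a) = TauPt.mk (repA R N j b) ↔
      Pool.Agent.W_MP_654ec6_h2.SamePt N i a j b := by
  constructor
  · intro h
    obtain ⟨ε, hε, hX, hY, hv⟩ := Amb_data h
    have key : ∀ k : Fin 3, b k.succ / n3 b = ε * (a k.succ / n3 a) := by
      intro k
      by_cases h0 : n3 a = 0
      · rcases hε with rfl | rfl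
        · obtain ⟨hij, hb0, -, -⟩ := edge_only hN ha.1 hb.1 (Or.inl rfl) ha.2.1 h0 hb.2.1 hX hY
          rw [hb0, h0]
          simp
        · obtain ⟨hij, hb0, -, -⟩ := edge_only hN ha.1 hb.1 (Or.inr rfl) ha.2.1 h0 hb.2.1 hX hY
          rw [hb0, h0]
          simp
      · have hG := mem_VC_of_n3 ha.1 ha.2.1 h0
        have hbp := bb_pos hR hN hG
        refine mul_left_cancel₀ hbp.ne' ?_
        rw [hv k]
        ring
    refine ⟨hY.symm, ?_⟩
    rcases hε with rfl | rfl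
    · left
      refine ⟨by rw [hX, one_mul], ?_⟩
      rw [dir3_eq_iff]
      intro k
      rw [key k, one_mul]
    · right
      refine ⟨by rw [hX]; ring, ?_⟩
      rw [dir3_eq_neg_iff]
      intro k
      rw [key k]
      ring
  · rintro ⟨hY, ⟨hX, hd⟩ | ⟨hX, hd⟩⟩
    · rw [dir3_eq_iff] at hd
      exact (Amb_mk (R := R) (ε := 1) (Or.inl rfl) (by rw [hX, one_mul]) hY.symm
        (fun k => by rw [hd k, one_mul])).symm
    · rw [dir3_eq_neg_iff] at hd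
      exact (Amb_mk (R := R) (ε := -1) (Or.inr rfl) (by rw [hX]; ring) hY.symm
        (fun k => by rw [hd k]; ring)).symm

end Pool.Agent.W_MP_654ec6
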