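import Pool.Agent.W_MP_654ec6.F.Sep
import Pool.Agent.W_MP_654ec6.G.AmbVA

/-!
# Part G: the interface `AmbData` for the spaces `Sp(N)`
-/

open scoped ContDiff Topology
open Filter Real

namespace Pool.Agent.W_MP_654ec6

open Pool.Agent.W_MP_654ec6_h2 (AmbData SamePt vd)

section

variable (K : Core) (N : ℕ∞) (hN : 2 ≤ N)

/-- The blocks, and the middle block for `k = 0`. -/
def spU (k : ℕ) : Set (sp K N hN).Pt := if k = 0 then UX K N hN else UB K N hN k

theorem spU_zero : spU K N hN 0 = UX K N hN := if_pos rfl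

theorem spU_pos {k : ℕ} (hk : 1 ≤ k) : spU K N hN k = UB K N hN k := if_neg (by omega)

theorem one_le_of_two {N : ℕ∞} (hN : 2 ≤ N) : 1 ≤ N := le_trans (by norm_num) hN

/-- Points of the patchwork and of the pre-patchwork. -/
theorem spPsi_iff {i j : (spP K N hN).ι} {a b : E4} (ha : a ∈ (spP K N hN).V i)
    (hb : b ∈ (spP K N hN).V j) : (sp K N hN).ψ i a = (sp K N hN).ψ j b ↔
      (spP K N hN).ψ i a = (spP K N hN).ψ j b :=
  PreP.Pre_cpsi_iff (spP K N hN) (spBase K N hN) ha hb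

/-- The points of the block `k` in terms of the pre-patchwork. -/
theorem mem_UB {k : ℕ} {p : (sp K N hN).Pt} (hp : p ∈ UB K N hN k) :
    (1 ≤ k ∧ (k : ℕ∞) ≤ N) ∧ ∃ (i : (bP (spBlk K N k) (N ≠ ⊤)).ι) (a : E4),
      a ∈ (bP (spBlk K N k) (N ≠ ⊤)).V i ∧
        (sp K N hN).ψ (Sum.inl (Sum.inr ⟨k, i⟩)) a = p := by
  rcases hp with ⟨j, a, ha, h⟩ | ⟨j, a, ha, h⟩
  · exact ⟨ha.1, Sum.inl j, a, ha.2, h⟩
  · exact ⟨ha.1, Sum.inr j, a, ha.2, h⟩

theorem mem_UB_of {k : ℕ} (hk : 1 ≤ k ∧ (k : ℕ∞) ≤ N) (i : (bP (spBlk K N k) (N ≠ ⊤)).ι) {a : E4}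
    (ha : a ∈ (bP (spBlk K N k) (N ≠ ⊤)).V i) :
    (sp K N hN).ψ (Sum.inl (Sum.inr ⟨k, i⟩)) a ∈ UB K N hN k := by
  rcases i with j | j
  · exact Or.inl ⟨j, a, ⟨hk, ha⟩, rfl⟩
  · exact Or.inr ⟨j, a, ⟨hk, ha⟩, rfl⟩

/-- A point of an ambient patch in the block `k` is in the collar. -/
theorem collar_lt {j : ℕ} {a : E4} (ha : a ∈ VA N (spRad K N) j) {k : ℕ}
    (h : (sp K N hN).ψ (ixC K N hN j) a ∈ UB K N hN k) :
    ∃ u : E4, ‖u‖ ∈ collT (spRad K N k) (spB K N k) ∧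
      collE (spAmb K N hN) k (spB K N k) u = TauPt.mk (repA K.R N j a) := by
  obtain ⟨hk, i, b, hb, h1⟩ := mem_UB K N hN h
  have hb' : b ∈ (spP K N hN).V (Sum.inl (Sum.inr ⟨k, i⟩)) := ⟨hk, hb⟩
  have h2 := (spPsi_iff K N hN (i := ixC K N hN j) ha hb').1 h1.symm
  obtain ⟨u, hu, h3, -, h4⟩ := (spEq_CQ K N hN i hk hb).1 h2
  exact ⟨u, ⟨h3, hu.2⟩, h4⟩

theorem vd_eq_rAmb {k : ℕ} (hk : 1 ≤ k) (hkN : (k : ℕ∞) ≤ N) (j : ℕ) (a : E4) :
    vd N k (pX N j a) (pY N j a) =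
      rAmb (spAmb K N hN) k (TauPt.mk (repA K.R N j a)) + spRad K N k := by
  classical
  have h1 := rAmb_repA (spAmb K N hN) k j a
  have h2 : (1 ≤ k ∧ (k : ℕ∞) ≤ (spAmb K N hN).N) := ⟨hk, hkN⟩
  rw [if_pos h2] at h1
  have h3 : rAmb (spAmb K N hN) k (TauPt.mk (repA K.R N j a)) =
      rVert (spAmb K N hN) k (pX N j a) (pY N j a) := h1
  rw [h3]
  unfold rVert vd
  have h4 : (spAmb K N hN).N = N := rfl
  have h5 : (spAmb K N hN).ρ k = spRad K N k := rfl
  rw [h4, h5]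
  ring

/-- Near the middle point of the middle edge (`N` finite). -/
theorem mid_near {j : ℕ} {a : E4} (ha : a ∈ VA N (spRad K N) j) (hN' : N ≠ ⊤) {u : E4}
    (hu : ‖u‖ < 2 * spRad K N 0)
    (h : TauPt.mk (repA K.R N j a) = TauPt.mk (repA K.R N N.toNat u)) :
    |pX N j a| < 2 * spRad K N 0 := by
  obtain ⟨ε, hε, hX, -, -⟩ := Amb_data h
  obtain ⟨n, rfl⟩ := ENat.ne_top_iff_exists.1 hN'
  rw [ENat.toNat_natCast] at hX
  have h1 : |pX (n : ℕ∞) n u| = |pX (n : ℕ∞) j a| := by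
    rw [hX]
    rcases hε with rfl | rfl
    · rw [one_mul]
    · rw [neg_one_mul, abs_neg]
  rw [← h1]
  have h2 : pX (n : ℕ∞) n u = u 0 := by
    have hnlt : ¬ ((n : ℕ∞) < (n : ℕ∞)) := lt_irrefl _
    unfold pX OX oj
    rw [if_neg hnlt, aa_of_not_lt hnlt]
    norm_num
  rw [h2]
  have h3 := norm_sq_E4 u
  have h4 : |u 0| ≤ ‖u‖ := by
    apply abs_le_of_sq_le_sq _ (norm_nonneg u)
    rw [h3]
    nlinarith [sq_nonneg (u 1), sq_nonneg (u 2), sq_nonneg (u 3)]
  linarith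

/-- The radius of the middle block is much smaller than the abscissas of the vertices. -/
theorem mid_small {k : ℕ} (hN' : N ≠ ⊤) (hkN : (k : ℕ∞) ≤ N) :
    2 * spRad K N 0 ≤ zz k / 32 := by
  obtain ⟨n, rfl⟩ := ENat.ne_top_iff_exists.1 hN'
  have h1 := (spRad_ok K (n : ℕ∞)).mid hN'
  rw [ENat.toNat_natCast] at h1
  have hkn : k ≤ n := by exact_mod_cast hkN
  have h2 := zz_anti hkn
  have h3 := zz_pos n
  have h4 := cc_le (n : ℕ∞) n
  have h5 := cc_nonneg (n : ℕ∞) n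
  have h6 := K.R_pos
  have h7 := K.R_le
  have h8 : K.R * cc (n : ℕ∞) n ≤ 1 := by nlinarith
  have h9 : K.R * cc (n : ℕ∞) n * zz n ≤ 1 * zz n := mul_le_mul_of_nonneg_right h8 h3.le
  linarith

theorem spU_disj (k l : ℕ) (hkl : k ≠ l) : Disjoint (spU K N hN k) (spU K N hN l) := by
  have key0 : ∀ l : ℕ, 1 ≤ l → Disjoint (UX K N hN) (UB K N hN l) := by
    intro l hl
    rw [Set.disjoint_left]
    rintro p ⟨j, a, ha, h1⟩ h2
    obtain ⟨hk, i, b, hb, h3⟩ := mem_UB K N hN h2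
    have hb' : b ∈ (spP K N hN).V (Sum.inl (Sum.inr ⟨l, i⟩)) := ⟨hk, hb⟩
    have h4 := (spPsi_iff K N hN (i := ixX K N hN j) ha hb').1 (h1.trans h3.symm)
    -- the point is in the collar of the middle block
    obtain ⟨h5, d, hd, u, hu, h6, h7⟩ :=
      (PreP.glue_inl_inr_iff (midGlue K N hN) (i := Sum.inr ⟨l, i⟩) (j := j) (a := b) ha).1 h4.symm
    obtain rfl : d = EHI.F := hd
    have h8 : 0 < ehR (WPt.mk ehm (ehs (spX K N) EHI.F u)) - spRad K N 0 := by
      have h9 : 0 < (midGlue K N hN).rQ (((ehP (midEHD K N)).restr (N ≠ ⊤)).ψ EHI.F u) := by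
        rw [h6]
        exact h5
      exact h9
    rw [ehR_F] at h8
    have hN' : N ≠ ⊤ := hu.1
    -- an ambient label of the collar point
    have h10 : (spP1 K N hN).ψ (Sum.inl N.toNat) u = (spP1 K N hN).ψ (Sum.inr ⟨l, i⟩) b := h7
    have h11 : (spP K N hN).ψ (ixC K N hN N.toNat) u =
        (spP K N hN).ψ (Sum.inl (Sum.inr ⟨l, i⟩)) b := congrArg Sum.inl h10
    obtain ⟨u', hu', h12, -, h13⟩ := (spEq_CQ K N hN i hk hb).1 h11
    have hco := spColl K N hN hk.1 hk.2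
    have hu'' : ‖u'‖ ∈ collT (spRad K N l) (spB K N l) := ⟨h12, hu'.2⟩
    obtain ⟨j', θ, h14, -, h15⟩ := hco.etale hu''
    have h16 : TauPt.mk (repA K.R N j' (θ u')) = collE (spAmb K N hN) l (spB K N l) u' :=
      h15.self_of_nhds
    have h17 : TauPt.mk (repA K.R N j' (θ u')) = TauPt.mk (repA K.R N N.toNat u) :=
      h16.trans h13
    have h18 := mid_near K N h14 hN' (u := u) hu.2.2 h17
    have h19 := hco.near hu''
    have h20 := mid_small K N hN' hk.2
    have h21 : rAmb (spAmb K N hN) l (TauPt.mk (repA K.R N j' (θ u'))) =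
        brad (spB K N l) u' - spRad K N l := by
      rw [h16]
      exact hco.rAmb_collE hu''
    have h22 := vd_eq_rAmb K N hN hk.1 hk.2 j' (θ u')
    rw [h21, sub_add_cancel] at h22
    have h23 := (hco.brad_mem hu'').2
    have h24 : vd N l (pX N j' (θ u')) (pY N j' (θ u')) < 2 * spRad K N l := by
      rw [h22]
      exact h23
    have h25 : 2 * spRad K N l ≤ zz l / 8 := (spRad_ok K N).le l hk.1
    have h26 : |(|pX N j' (θ u')| - zz l)| ≤ vd N l (pX N j' (θ u')) (pY N j' (θ u')) := by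
      unfold vd
      apply Real.abs_le_sqrt
      nlinarith [sq_nonneg (pY N j' (θ u') - FF N (zz l))]
    have h27 := (abs_le.1 h26).1
    have h28 := zz_pos l
    linarith
  rcases Nat.eq_zero_or_pos k with rfl | hk
  · rw [spU_zero, spU_pos K N hN (by omega : 1 ≤ l)]
    exact key0 l (by omega)
  · rcases Nat.eq_zero_or_pos l with rfl | hl
    · rw [spU_zero, spU_pos K N hN hk]
      exact (key0 k hk).symm
    · rw [spU_pos K N hN hk, spU_pos K N hN hl, Set.disjoint_left]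
      intro p h1 h2
      obtain ⟨hk, i, a, ha, h3⟩ := mem_UB K N hN h1
      obtain ⟨hl, j, b, hb, h4⟩ := mem_UB K N hN h2
      have ha' : a ∈ (spP K N hN).V (Sum.inl (Sum.inr ⟨k, i⟩)) := ⟨hk, ha⟩
      have hb' : b ∈ (spP K N hN).V (Sum.inl (Sum.inr ⟨l, j⟩)) := ⟨hl, hb⟩
      exact spEq_QQ_ne K N hN i j hk hl ha hb hkl
        ((spPsi_iff K N hN ha' hb').1 (h3.trans h4.symm))

/-- **The interface for the ambient part of `Sp(N)`.** -/
theorem ambData : AmbData K.R N (spRad K N) 30 (W := (sp K N hN).Pt)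
    (fun j => (sp K N hN).ψ (ixC K N hN j)) (spU K N hN) where
  R_pos := K.R_pos
  R_le := by
    have := K.R_le
    linarith
  locLip := (sp K N hN).locLipProp
  ρ_pos := spRad_pos K N
  ρ_le := fun k hk => (spRad_eq_top K hk N).le
  C_pos := by norm_num
  upper := fun j hj a ha ε hε => by
    have ha' := (va_mem (one_le_of_two hN) (fun k => (spRad_pos K N k).le) hj a).2 ha
    exact (sp K N hN).dist_upper (i := ixC K N hN j) ha' hε
  lower := fun j hj a ha ε hε => by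
    have ha' := (va_mem (one_le_of_two hN) (fun k => (spRad_pos K N k).le) hj a).2 ha
    exact (sp K N hN).dist_lower (i := ixC K N hN j) ha' hε
  opn := fun j hj a ha S hS => by
    have ha' := (va_mem (one_le_of_two hN) (fun k => (spRad_pos K N k).le) hj a).2 ha
    exact (sp K N hN).image_mem_nhds (i := ixC K N hN j) ha' hS
  same := fun i j hi hj a ha b hb => by
    have ha' := (va_mem (one_le_of_two hN) (fun k => (spRad_pos K N k).le) hi a).2 ha
    have hb' := (va_mem (one_le_of_two hN) (fun k => (spRad_pos K N k).le) hj b).2 hb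
    exact ((spPsi_iff K N hN (i := ixC K N hN i) (j := ixC K N hN j) ha' hb').trans
      (spEq_CC K N hN)).trans (samePt_iff K.R_pos (one_le_of_two hN) ha' hb')
  cover := by
    intro w
    obtain ⟨i, a, ha, h⟩ := (sp K N hN).cover w
    rcases ix_cases K N hN i with ⟨j, rfl⟩ | ⟨k, j, rfl⟩ | ⟨k, j, rfl⟩ | ⟨j, rfl⟩
    · left
      have hj : (j : ℕ∞) ≤ N := ha.1
      exact ⟨j, hj, a, (va_mem (one_le_of_two hN) (fun k => (spRad_pos K N k).le) hj a).1 ha, h⟩
    · right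
      refine ⟨k, ha.1.2, fun _ => ha.1.1, ?_⟩
      rw [spU_pos K N hN ha.1.1]
      exact Or.inl ⟨j, a, ha, h⟩
    · right
      refine ⟨k, ha.1.2, fun _ => ha.1.1, ?_⟩
      rw [spU_pos K N hN ha.1.1]
      exact Or.inr ⟨j, a, ha, h⟩
    · right
      refine ⟨0, bot_le, fun h => absurd h ha.1, ?_⟩
      rw [spU_zero]
      exact ⟨j, a, ha, h⟩
  isOpen_VA := fun j hj => by
    rw [← va_eq (one_le_of_two hN) (fun k => (spRad_pos K N k).le) hj]
    exact isOpen_VA (one_le_of_two hN) (spRad_ok K N) j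
  isOpen_U := by
    intro k
    rcases Nat.eq_zero_or_pos k with rfl | hk
    · rw [spU_zero]
      exact isOpen_UX K N hN
    · rw [spU_pos K N hN hk]
      exact isOpen_UB K N hN k
  disj := spU_disj K N hN
  collar := fun j hj a ha k hk hkN h => by
    have ha' := (va_mem (one_le_of_two hN) (fun k => (spRad_pos K N k).le) hj a).2 ha
    rw [spU_pos K N hN hk] at h
    obtain ⟨u, hu, h1⟩ := collar_lt K N hN ha' h
    have hco := spColl K N hN hk hkN
    rw [vd_eq_rAmb K N hN hk hkN, ← h1, hco.rAmb_collE hu]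
    have h2 := (hco.brad_mem hu).2
    have h3 : (spAmb K N hN).ρ k = spRad K N k := rfl
    rw [h3] at h2 ⊢
    linarith
  collar' := fun j hj a ha k hk hkN h => by
    have ha' := (va_mem (one_le_of_two hN) (fun k => (spRad_pos K N k).le) hj a).2 ha
    rw [spU_pos K N hN hk]
    rw [vd_eq_rAmb K N hN hk hkN] at h
    have hco := spColl K N hN hk hkN
    have hρ := spRad_pos K N k
    have h3 : (spAmb K N hN).ρ k = spRad K N k := rfl
    obtain ⟨u, hu, h1⟩ := hco.surj (j := j) (a := a) ha' (by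
      have h4 : rAmb (spAmb K N hN) k (TauPt.mk (repA K.R N j a)) < spRad K N k := by linarith
      exact h4)
    have hu' : u ∈ VD (spBlk K N k) := by
      refine ⟨?_, hu.2⟩
      have h5 := hco.lt_T2 hu.1
      have h6 := hco.blk.blk.T2_gt
      have h7 := K.isCore.T0_gt
      have h8 := K.isCore.t0_lt
      change K.t0 / 2 < ‖u‖
      linarith
    have hu'' : u ∈ (spP K N hN).V (ixB K N hN k 0) := ⟨⟨hk, hkN⟩, hu'⟩
    refine Or.inl ⟨0, u, hu'', ?_⟩
    exact ((spPsi_iff K N hN (i := ixC K N hN j) (j := ixB K N hN k 0) ha' hu'').2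
      ((spEq_CD K N hN ⟨hk, hkN⟩ hu').2 ⟨hu.1, h1⟩)).symm
  diam := fun k hk hkN w hw w' hw' => by
    rw [spU_pos K N hN hk] at hw hw'
    exact UB_diam K N hN hk hkN hw hw'

end

end Pool.Agent.W_MP_654ec6
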