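import Pool.Agent.W_MP_654ec6.C.Coord
import Pool.Agent.W_MP_654ec6_h2.GDefs

/-!
# Part G: the functions of the ambient space for `N = ⊤`
-/

open scoped ContDiff Topology
open Filter Real

namespace Pool.Agent.W_MP_654ec6

theorem amb_phi_small {ε : ℝ} (hε : 0 < ε) : ∃ η > (0 : ℝ), ∀ u : ℝ, |u| ≤ η → |phi ⊤ u| ≤ ε := by
  have h1 := (cc_tendsto ⊤).eventually (gt_mem_nhds hε)
  obtain ⟨J, hJ⟩ := eventually_atTop.1 h1
  refine ⟨zz (J + 1), zz_pos _, fun u hu => ?_⟩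
  have h2 := hJ (J + 1) (Nat.le_succ J)
  have hz := zz_pos (J + 1)
  have h3 : ∀ v : ℝ, |v| ≤ zz (J + 1) → phi ⊤ v ≤ ε := fun v hv =>
    (phi_le (by omega) (by linarith [le_abs_self v])).trans h2.le
  have h4 := h3 u hu
  have h5 := h3 (-u) (by rwa [abs_neg])
  rw [phi_neg] at h5
  exact abs_le.2 ⟨by linarith, h4⟩

theorem amb_FF_small {ε : ℝ} (hε : 0 < ε) : ∃ η > (0 : ℝ), ∀ X X' : ℝ, |X| ≤ η → |X'| ≤ η →
    |FF ⊤ X - FF ⊤ X'| ≤ ε * |X - X'| := by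
  obtain ⟨η, hη, h⟩ := amb_phi_small hε
  refine ⟨η, hη, fun X X' hX hX' => ?_⟩
  rw [FFun_sub]
  have h1 := intervalIntegral.norm_integral_le_of_norm_le_const (a := X') (b := X)
    (f := phi ⊤) (C := ε) (fun u hu => by
      rw [Real.norm_eq_abs]
      apply h
      have h2 := Set.uIoc_subset_uIcc hu
      rw [abs_le] at hX hX' ⊢
      rcases Set.mem_uIcc.1 h2 with h3 | h3
      · exact ⟨by linarith, by linarith⟩
      · exact ⟨by linarith, by linarith⟩)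
  rw [Real.norm_eq_abs] at h1
  exact h1

theorem amb_near_edge (j : ℕ) (a : E4) (h0 : n3 a = 0) (h1 : opEdge ⊤ j (pX ⊤ j a))
    (S : Set E4) (hS : S ∈ 𝓝 a) : ∃ v ∈ S, GG ⊤ (pX ⊤ j v) < pY ⊤ j v := by
  have ha : a ∈ VC ⊤ j := Or.inr ⟨h0, h1⟩
  have hV := (isOpen_VC (N := ⊤) le_top (le_top : (j : ℕ∞) ≤ ⊤)).mem_nhds ha
  obtain ⟨z1, z2, z3⟩ := n3_eq_zero.1 h0
  have hc : ContinuousAt (fun ε : ℝ => a + ε • (EuclideanSpace.single 1 1 : E4)) 0 := by fun_prop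
  have h2 : ∀ᶠ ε : ℝ in 𝓝 0, a + ε • (EuclideanSpace.single 1 1 : E4) ∈ S ∩ VC ⊤ j := by
    apply hc.eventually_mem
    rw [zero_smul, add_zero]
    exact inter_mem hS hV
  have h3 : ∀ᶠ ε : ℝ in 𝓝[>] 0, a + ε • (EuclideanSpace.single 1 1 : E4) ∈ S ∩ VC ⊤ j :=
    h2.filter_mono nhdsWithin_le_nhds
  obtain ⟨ε, h4, h5⟩ := (h3.and self_mem_nhdsWithin).exists
  refine ⟨_, h4.1, mem_VC_of_n3 (le_top : (j : ℕ∞) ≤ ⊤) h4.2 ?_⟩
  intro h6
  obtain ⟨w1, -, -⟩ := n3_eq_zero.1 h6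
  have h7 : (0 : ℝ) < ε := h5
  simp [z1] at w1
  linarith

/-- The facts about the functions of the ambient space with infinitely many vertices. -/
theorem ambFun {R : ℝ} (hR0 : 0 < R) (hR8 : R ≤ 1 / 8) :
    Pool.Agent.W_MP_654ec6_h2.AmbFun R where
  FF_even := FF_neg ⊤
  GG_even := GG_neg ⊤
  FF_ge := FF_zero_le ⊤
  FF_le_GG := FF_le_GG ⊤ le_top
  FF_small := fun ε hε => amb_FF_small hε
  GG_small := fun ε hε => by
    obtain ⟨r, hr, h⟩ := GG_top_small hε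
    refine ⟨r / 2, by positivity, fun X hX => ?_⟩
    have h1 := h X (by linarith)
    have h2 := FF_zero_le ⊤ X
    linarith
  GG_lip := fun X X' => by
    have := GG_lip ⊤ le_top X X'
    linarith
  bb_pos := fun X Y h => bb_pos hR0 le_top h
  bb_le := fun X Y h => bb_le_RD hR0 le_top h.le
  bb_eq := fun X Y h h' => bb_eq_RD hR0 hR8 le_top h h'
  FF_cont := (FF_contDiff ⊤).continuous
  sc_pos := fun j X Y h => sc_pos le_top h
  edge_Y := fun j u h0 h1 => by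
    rw [pY_of_n3_zero ⊤ j h0, GG_eq_of_opEdge h1]
  near_edge := amb_near_edge
  GG_zz := fun k hk => GG_vertex hk le_top

end Pool.Agent.W_MP_654ec6
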