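import Pool.Agent.W_MP_654ec6.B.Topo
import Pool.Agent.W_MP_654ec6.F.Pre
import Pool.Agent.W_MP_654ec6_h2.Pk

/-!
# Part G: charts of conical points from patches; continuous functions on patchworks
-/

open scoped ContDiff Topology
open Filter Real

namespace Pool.Agent.W_MP_654ec6

/-- A function on a patchwork is continuous if it is continuous along the patches. -/
theorem Patchwork.continuous_of (P : Patchwork) {h : P.Pt → ℝ}
    (hc : ∀ i, ∀ a ∈ P.V i, ContinuousAt (fun x => h (P.ψ i x)) a) : Continuous h := by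
  rw [continuous_iff_continuousAt]
  intro p
  obtain ⟨i, a, ha, rfl⟩ := P.cover p
  rw [ContinuousAt, ← P.map_nhds ha, tendsto_map'_iff]
  exact hc i a ha

/-- A function on a pre-patchwork which is continuous along the patches is continuous on the
patchwork. -/
theorem PreP.continuous_toPatchwork (P : PreP) (b : P.CPt)
    (conn : ∀ i j, ∀ a ∈ P.V i, ∀ c ∈ P.V j, Relation.ReflTransGen P.Seg (P.ψ i a) (P.ψ j c))
    {h : P.Pt → ℝ} (hc : ∀ i, ∀ a ∈ P.V i, ContinuousAt (fun x => h (P.ψ i x)) a) :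
    Continuous fun p : (P.toPatchwork b conn).Pt => h p.1 := by
  apply Patchwork.continuous_of
  intro i a ha
  refine (hc i a ha).congr ?_
  filter_upwards [(P.isOpen_V i).mem_nhds ha] with x hx
  exact congrArg h (PreP.Pre_cpsi_val P b hx).symm

/-- The chart of a conical point, from a patch with a flat metric which is two-to-one, and a
continuous positive function which is the radius in the patch. -/
theorem pkChart_of (P : Patchwork) (i : P.ι) {s δ : ℝ} (hs : 0 < s) (hδ : 0 < δ)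
    (hV : ∀ u : E4, 0 < ‖u‖ → ‖u‖ < δ → u ∈ P.V i)
    (hg : ∀ u : E4, 0 < ‖u‖ → ‖u‖ < δ → ∀ v : E4, qf (P.g i u) v = (s * ‖v‖) ^ 2)
    (hinj : ∀ u v : E4, 0 < ‖u‖ → ‖u‖ < δ → 0 < ‖v‖ → ‖v‖ < δ →
      (P.ψ i u = P.ψ i v ↔ v = u ∨ v = -u))
    (h : P.Pt → ℝ) (hc : Continuous h) (hpos : ∀ p, 0 < h p)
    (hh : ∀ u : E4, 0 < ‖u‖ → ‖u‖ < δ → h (P.ψ i u) = ‖u‖) :
    Pool.Agent.W_MP_654ec6_h2.PkChart P.Pt (P.ψ i) s δ where
  s_pos := hs
  δ_pos := hδ
  upper := fun u h0 h1 ε hε => by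
    filter_upwards [P.dist_upper (hV u h0 h1) hε] with q hq
    rwa [hg u h0 h1, Real.sqrt_sq (by positivity)] at hq
  lower := fun u h0 h1 ε hε => by
    filter_upwards [P.dist_lower (hV u h0 h1) hε] with q hq
    rwa [hg u h0 h1, Real.sqrt_sq (by positivity)] at hq
  opn := fun u h0 h1 U hU => P.image_mem_nhds (hV u h0 h1) hU
  inj := hinj
  closed := by
    intro r hr
    refine isClosed_of_closure_subset fun p hp => ?_
    obtain ⟨c, hc0⟩ : ∃ c, c = h p / 2 := ⟨_, rfl⟩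
    have hcp : 0 < c := by
      have := hpos p
      rw [hc0]
      linarith
    have hO : {q | c < h q} ∈ 𝓝 p := by
      apply hc.continuousAt.eventually_const_lt
      have := hpos p
      rw [hc0]
      linarith
    have hcomp : IsCompact {u : E4 | c ≤ ‖u‖ ∧ ‖u‖ ≤ r} := by
      have h1 : {u : E4 | c ≤ ‖u‖ ∧ ‖u‖ ≤ r} = Metric.closedBall 0 r ∩ {u | c ≤ ‖u‖} := by
        ext u
        simp only [Set.mem_ofPred_eq, Set.mem_inter_iff, mem_closedBall_zero_iff]
        exact and_comm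
      rw [h1]
      exact (isCompact_closedBall 0 r).inter_right (isClosed_le continuous_const continuous_norm)
    have hsub : {u : E4 | c ≤ ‖u‖ ∧ ‖u‖ ≤ r} ⊆ P.V i := fun u hu =>
      hV u (hcp.trans_le hu.1) (hu.2.trans_lt hr)
    have hT : IsClosed (P.ψ i '' {u : E4 | c ≤ ‖u‖ ∧ ‖u‖ ≤ r}) :=
      (hcomp.image_of_continuousOn ((P.continuousOn_psi i).mono hsub)).isClosed
    have h2 : p ∈ closure (P.ψ i '' {u : E4 | c ≤ ‖u‖ ∧ ‖u‖ ≤ r}) := by
      rw [mem_closure_iff_nhds] at hp ⊢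
      intro t ht
      obtain ⟨q, hq1, u, hu, rfl⟩ := hp _ (inter_mem ht hO)
      have h3 : c < h (P.ψ i u) := hq1.2
      rw [hh u hu.1 (hu.2.trans_lt hr)] at h3
      exact ⟨_, hq1.1, u, ⟨h3.le, hu.2⟩, rfl⟩
    rw [hT.closure_eq] at h2
    obtain ⟨u, hu, rfl⟩ := h2
    exact ⟨u, ⟨hcp.trans_le hu.1, hu.2⟩, rfl⟩

end Pool.Agent.W_MP_654ec6
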