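import Pool.Agent.W_MP_654ec6.F.SpLab
import Pool.Agent.W_MP_654ec6.G.PkGen

/-!
# Part G: the conical points of `Sp(∞)`
-/

open scoped ContDiff Topology
open Filter Real

namespace Pool.Agent.W_MP_654ec6

/-- `aSq` is continuous along the patches of a block. -/
theorem continuousAt_aSq (P : BlkPar) (i : Fin 3) {a : E4} (ha : a ∈ blkV P i) :
    ContinuousAt (fun x => aSq (blkPsi P i x)) a := by
  have h1 : Continuous fun p : ℂ × ℂ × ℂ => 1 - max 0 (1 - ‖p.2.2‖ ^ 2) * ‖p.2.1‖ ^ 2 := by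
    fun_prop
  exact ContinuousAt.comp (g := fun p : ℂ × ℂ × ℂ => 1 - max 0 (1 - ‖p.2.2‖ ^ 2) * ‖p.2.1‖ ^ 2)
    (f := blkRep P i) h1.continuousAt (continuousAt_blkRep P i ha)

section

variable (K : Core) (N : ℕ∞) (hN : 2 ≤ N)

open Classical in
/-- The radius around the conical point of the block `k` (cut off at `1`). -/
noncomputable def pkB (k : ℕ) (l : ℕ) (p : WPt ![1, 2, 1]) : ℝ :=
  if l = k then min (√(aSq p)) 1 else 1

theorem pk_ok (k : ℕ) : SpFunOK K ⊤ le_top (fun _ => 1) (pkB k) (fun _ _ => 1) (fun _ => 1) where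
  cb := by
    intro l hl hlN u hu h
    unfold pkB
    split_ifs with h1
    · have h2 := (rBlk_pos_D (spBlk K ⊤ l) hu).2 h
      have h3 := aSq_collar (spBlk K ⊤ l) (i := 0) hu h2
      rw [h3, Real.sqrt_one, min_self]
    · rfl
  be := fun h => absurd rfl h
  cx := fun h => absurd rfl h

/-- The radius function on `Sp(∞)`. -/
noncomputable def pkFun (k : ℕ) : (spP K ⊤ le_top).Pt → ℝ :=
  spFun K ⊤ le_top (fun _ => 1) (pkB k) (fun _ _ => 1) (fun _ => 1)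

theorem pkFun_cont (k : ℕ) (i : (spP K ⊤ le_top).ι) (a : E4) (ha : a ∈ (spP K ⊤ le_top).V i) :
    ContinuousAt (fun x => pkFun K k ((spP K ⊤ le_top).ψ i x)) a := by
  refine spFun_cont K ⊤ le_top (pk_ok K k) ?_ ?_ ?_ ?_ i a ha
  · exact fun _ _ _ => continuousAt_const
  · intro l hl hlN i a ha
    unfold pkB
    split_ifs with h1
    · exact (continuousAt_aSq (spBlk K ⊤ l) i ha).sqrt.min continuousAt_const
    · exact continuousAt_const
  · exact fun h => absurd rfl h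
  · exact fun h => absurd rfl h

theorem pkFun_pos (k : ℕ) (i : (spP K ⊤ le_top).ι) (a : E4) (ha : a ∈ (spP K ⊤ le_top).V i) :
    0 < pkFun K k ((spP K ⊤ le_top).ψ i a) := by
  refine spFun_pos K ⊤ le_top (pk_ok K k) ?_ ?_ ?_ ?_ i a ha
  · exact fun _ _ _ => one_pos
  · intro l hl hlN i a ha
    unfold pkB
    split_ifs with h1
    · have h2 := aSq_gt (spBlk K ⊤ l) ha
      have h3 : 0 < aSq (blkPsi (spBlk K ⊤ l) i a) := lt_of_le_of_lt (sq_nonneg _) h2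
      exact lt_min (Real.sqrt_pos.2 h3) one_pos
    · exact one_pos
  · exact fun h => absurd rfl h
  · exact fun h => absurd rfl h

theorem mem_VF_top {k : ℕ} {u : E4} (h0 : 0 < ‖u‖) (h1 : ‖u‖ < K.A0) :
    u ∈ VF (spBlk K ⊤ k) := by
  obtain ⟨s1, s2, s3, s4⟩ := sin_half (spBlk K ⊤ k)
  have h2 : (spBlk K ⊤ k).a = 0 := spA_top K k
  have h3 : K.A0 < sin (K.t0 / 2) / 2 := s3
  have h4 : sin (K.t0 / 2) < sin K.t0 := s2
  have h5 : 0 < sin (K.t0 / 2) := s1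
  refine ⟨?_, ?_⟩
  · rw [h2]
    exact h0
  · change ‖u‖ < sin K.t0
    linarith

/-- The metric of the patch `F` near the conical point is flat. -/
theorem qf_gF_flat {u : E4} (h1 : ‖u‖ < K.A0) (v : E4) : qf (gF K 0 u) v = ‖v‖ ^ 2 := by
  have hv : K.v ‖u‖ = 0 := K.v_zero _ h1.le
  unfold gF
  rw [qf_u2Z]
  have e1 : K.U 0 ‖u‖ = 1 := by
    unfold Core.U
    rw [hv]
    norm_num
  have e2 : K.W 0 ‖u‖ = 1 := by
    unfold Core.W
    rw [hv]
    norm_num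
  rw [e1, e2, nsq_eq_norm]
  norm_num

/-- The index of the patch `F` of the block `k` in `Sp(∞)`. -/
def pkIx (k : ℕ) : (sp K ⊤ le_top).ι := ixB K ⊤ le_top k 2

/-- The charts of the conical points of `Sp(∞)`. -/
theorem pkChart (k : ℕ) (hk : 1 ≤ k) : Pool.Agent.W_MP_654ec6_h2.PkChart (sp K ⊤ le_top).Pt
    ((sp K ⊤ le_top).ψ (pkIx K k)) (spB K ⊤ k).s K.A0 := by
  have hk' : 1 ≤ k ∧ (k : ℕ∞) ≤ ⊤ := ⟨hk, le_top⟩
  have hmem : ∀ u : E4, 0 < ‖u‖ → ‖u‖ < K.A0 → u ∈ (spP K ⊤ le_top).V (ixB K ⊤ le_top k 2) :=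
    fun u h0 h1 => ⟨hk', mem_VF_top K h0 h1⟩
  refine pkChart_of (sp K ⊤ le_top) (pkIx K k) (spBlk K ⊤ k).ok.blk.s_pos K.A0_pos hmem ?_ ?_
    (fun p => pkFun K k p.1) ?_ ?_ ?_
  · intro u h0 h1 v
    have h2 : (sp K ⊤ le_top).g (pkIx K k) = smulMet ((spB K ⊤ k).s ^ 2) (gF K (spA K ⊤ k)) := rfl
    rw [h2, spA_top, qf_smulMet, qf_gF_flat K h1, mul_pow]
  · intro u v h0 h1 h2 h3
    refine (PreP.Pre_cpsi_iff (spP K ⊤ le_top) (spBase K ⊤ le_top) (hmem u h0 h1)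
      (hmem v h2 h3)).trans ?_
    refine (spEq_BB K ⊤ le_top hk' (i := 2) (j := 2) (mem_VF_top K h0 h1)
      (mem_VF_top K h2 h3)).trans ?_
    exact blkPsi_F_iff (spBlk K ⊤ k) (mem_VF_top K h0 h1) (mem_VF_top K h2 h3)
  · exact PreP.continuous_toPatchwork (spP K ⊤ le_top) (spBase K ⊤ le_top)
      (spP_conn K ⊤ le_top) (pkFun_cont K k)
  · intro p
    obtain ⟨i, a, ha, h⟩ := p.2
    rw [← h]
    exact pkFun_pos K k i a ha
  · intro u h0 h1
    change pkFun K k ((spP K ⊤ le_top).cpsi (spBase K ⊤ le_top) (ixB K ⊤ le_top k 2) u).1 = ‖u‖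
    rw [PreP.Pre_cpsi_val (spP K ⊤ le_top) (spBase K ⊤ le_top) (hmem u h0 h1)]
    have h2 := spFun_B K ⊤ le_top (pk_ok K k) hk' (i := 2) (mem_VF_top K h0 h1)
    refine h2.trans ?_
    unfold pkB
    obtain ⟨s1, s2, s3, s4⟩ := sin_half (spBlk K ⊤ k)
    have h3 : K.A0 < sin (K.t0 / 2) / 2 := s3
    have h5 := K.sin_t0.2
    have h4 : sin (K.t0 / 2) < sin K.t0 := s2
    rw [if_pos rfl, aSq_F (spBlk K ⊤ k) (mem_VF_top K h0 h1), Real.sqrt_sq h0.le, min_eq_left]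
    linarith

end

end Pool.Agent.W_MP_654ec6
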