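import Pool.Agent.W_MP_654ec6.B.Volume
import Pool.Agent.W_MP_654ec6.F.Sp2

/-!
# Task G-Vol: the spaces `Sp(N)` are noncollapsed

Apply `vol4_lower` with the patch `ixC 0`, `a = spPt` (over `(X, Y) = (0, 10)`), `r = 1`, `c = R/2`, `C = 2`.
For `u ∈ closedBall a 1`: `|pX u| ≤ 2`, `pY u ≥ 8` (`lc_sc_dist`, `|n3 u - n3 a| ≤ ‖u - a‖`), so `GG N (pX u) < pY u`
and the disks are far away, and `u ∈ VA`. There `5/4 (GG - FF) ≤ Y - FF`, so `bb = R (Y - FF N X)` (`bb_eq_RD`) with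
`7 ≤ Y - FF N X ≤ 13`, and `7 ≤ n3 u = sc ≤ 13` (`sc_eq`, `sc_p`), so `R/2 ≤ bb/n3 ≤ 2 R ≤ 2`, and
`(R/2)² |v|² ≤ qf (gC ..) v ≤ 4 |v|²` by `qf_gC`. Injectivity on the ball: if two points have the same
image then (`repA_inj`) they are equal or related by `τ`; in the latter case their directions are
opposite, but all directions `(u 1, u 2, u 3)/n3 u` of points of the ball are close to the one of `a`
(`|(u 1, u 2, u 3) - (a 1, a 2, a 3)| ≤ 1`, `n3 ≥ 7`).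
-/

open scoped ContDiff Topology
open Filter Real

namespace Pool.Agent.W_MP_654ec6

theorem Vol_norm_sq (v : E4) : ‖v‖ ^ 2 = v 0 ^ 2 + v 1 ^ 2 + v 2 ^ 2 + v 3 ^ 2 := by
  rw [EuclideanSpace.norm_sq_eq, Fin.sum_univ_four]
  simp only [Real.norm_eq_abs, sq_abs]

theorem Vol_dist_sq (u a : E4) : dist u a ^ 2 =
    (u 0 - a 0) ^ 2 + (u 1 - a 1) ^ 2 + (u 2 - a 2) ^ 2 + (u 3 - a 3) ^ 2 := by
  rw [dist_eq_norm, Vol_norm_sq]
  rfl

/-- `n3` is 1-Lipschitz in the last three coordinates. -/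
theorem Vol_n3_sub (u a : E4) :
    (n3 u - n3 a) ^ 2 ≤ (u 1 - a 1) ^ 2 + (u 2 - a 2) ^ 2 + (u 3 - a 3) ^ 2 := by
  have h1 := n3_sq u
  have h2 := n3_sq a
  have h3 := n3_nonneg u
  have h4 := n3_nonneg a
  have h5 := MetC_cs (u 1) (u 2) (u 3) (a 1) (a 2) (a 3)
  rw [← h1, ← h2, ← mul_pow] at h5
  have h6 : u 1 * a 1 + u 2 * a 2 + u 3 * a 3 ≤ n3 u * n3 a := by
    refine le_trans (le_abs_self _) (abs_le_of_sq_le_sq ?_ (mul_nonneg h3 h4))
    exact h5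
  nlinarith

/-- Near the point `(0, 10)` of the half plane. -/
theorem Vol_near {N : ℕ∞} {a u : E4} (hX : pX N 0 a = 0) (hY : pY N 0 a = 10)
    (hu : u ∈ Metric.closedBall a 1) :
    |pX N 0 u| ≤ 1 ∧ 9 ≤ pY N 0 u ∧ pY N 0 u ≤ 11 := by
  have h1 := lc_sc_dist N 0 (pX N 0 u) (pY N 0 u) (pX N 0 a) (pY N 0 a)
  rw [lc_p, lc_p, sc_p, sc_p, hX, hY] at h1
  have h2 := Vol_n3_sub u a
  have h3 := Vol_dist_sq u a
  have h4 : dist u a ≤ 1 := hu
  have h5 : dist u a ^ 2 ≤ 1 := by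
    have := dist_nonneg (x := u) (y := a)
    nlinarith
  have h6 : (pX N 0 u - 0) ^ 2 + (pY N 0 u - 10) ^ 2 ≤ 1 := by rw [← h1]; linarith
  refine ⟨abs_le.2 ⟨?_, ?_⟩, ?_, ?_⟩
  all_goals nlinarith [sq_nonneg (pX N 0 u), sq_nonneg (pY N 0 u - 10)]

theorem Vol_FF {N : ℕ∞} {X : ℝ} (hX : |X| ≤ 1) : -(1 / 10) ≤ FF N X ∧ FF N X ≤ 0 := by
  have h1 : FF N 1 = 0 := by
    unfold FF
    exact intervalIntegral.integral_same
  have h2 := FF_lip N X 1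
  rw [h1, sub_zero] at h2
  have h3 := FF_mono N (abs_nonneg X) hX
  rw [FF_abs, h1] at h3
  refine ⟨?_, h3⟩
  have h4 : |X - 1| ≤ 2 := by
    rw [abs_le] at hX ⊢
    constructor <;> linarith [hX.1, hX.2]
  have h5 := neg_abs_le (FF N X)
  linarith

theorem Vol_GG {N : ℕ∞} (hN : 1 ≤ N) {X : ℝ} (hX : |X| ≤ 1) : GG N X ≤ 1 / 5 := by
  have h1 := GG_lip N hN X 0
  rw [sub_zero] at h1
  have h2 := AmbConn_GG_zero hN
  have h3 := le_abs_self (GG N X - GG N 0)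
  linarith

theorem Vol_line {N : ℕ∞} (hN : 1 ≤ N) {X : ℝ} (hX : |X| ≤ 1) : -(1 / 4) ≤ line N 0 X := by
  have h0 : ((0 : ℕ) : ℕ∞) < N := lt_of_lt_of_le (by simp) hN
  rw [GFun_line h0]
  have h1 : |zz (0 + 1)| ≤ 1 := by
    rw [abs_of_pos (zz_pos _)]
    exact zz_le_one _
  have h2 := (Vol_FF (N := N) h1).1
  have h3 := aa_nonneg N 0
  have h4 := aa_le N 0
  have h5 : zz (0 + 1) = 1 / 2 := zz_one
  rw [h5] at h2 ⊢
  have h6 := (abs_le.1 hX).1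
  nlinarith

/-- The data at the points of the ball. -/
theorem Vol_data {R : ℝ} {N : ℕ∞} (hR : 0 < R) (hR' : R ≤ 1 / 8) (hN : 1 ≤ N) {a u : E4}
    (hX : pX N 0 a = 0) (hY : pY N 0 a = 10) (hu : u ∈ Metric.closedBall a 1) :
    GG N (pX N 0 u) < pY N 0 u ∧ 7 ≤ n3 u ∧ n3 u ≤ 13 ∧
      R / 2 ≤ bb R N (pX N 0 u) (pY N 0 u) / n3 u ∧
      bb R N (pX N 0 u) (pY N 0 u) / n3 u ≤ 1 := by
  obtain ⟨h1, h2, h3⟩ := Vol_near hX hY hu
  have h4 := Vol_FF (N := N) h1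
  have h5 := Vol_GG hN h1
  have h6 := Vol_line hN h1
  have h7 := line_le_GG (N := N) (j := 0) (by simp) (pX N 0 u)
  have h8 := sc_p N 0 u
  rw [sc_eq] at h8
  have h9 := one_le_oj N 0
  have h10 := oj_le N 0
  have h11 : 0 < oj N 0 := by linarith
  have h12 : n3 u * oj N 0 = pY N 0 u - line N 0 (pX N 0 u) := by
    rw [← h8]
    field_simp
  have h13 := n3_nonneg u
  have h14 : 7 ≤ n3 u := by
    by_contra hcon
    push Not at hcon
    nlinarith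
  have h15 : n3 u ≤ 13 := by nlinarith
  have h16 : GG N (pX N 0 u) < pY N 0 u := by linarith
  have h17 := bb_eq_RD hR hR' hN h16 (by linarith)
  refine ⟨h16, h14, h15, ?_, ?_⟩
  · rw [h17, le_div_iff₀ (by linarith)]
    nlinarith
  · rw [h17, div_le_one (by linarith)]
    nlinarith

theorem Vol_mem {R : ℝ} {N : ℕ∞} {ρ : ℕ → ℝ} (hR : 0 < R) (hR' : R ≤ 1 / 8) (hN : 1 ≤ N)
    (hρ : RadOK R N ρ) {a u : E4}
    (hX : pX N 0 a = 0) (hY : pY N 0 a = 10) (hu : u ∈ Metric.closedBall a 1) :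
    u ∈ VA N ρ 0 := by
  obtain ⟨h1, -⟩ := Vol_data hR hR' hN hX hY hu
  obtain ⟨-, h3, -⟩ := Vol_near hX hY hu
  exact ⟨AmbConn_zero_le N, Or.inl h1, AmbConn_high hR hρ hR' (by linarith)⟩

/-- The bounds of the quadratic form. -/
theorem Vol_qf {R : ℝ} {N : ℕ∞} (hR : 0 < R) (hR' : R ≤ 1 / 8) (hN : 1 ≤ N) {a u : E4}
    (hX : pX N 0 a = 0) (hY : pY N 0 a = 10) (hu : u ∈ Metric.closedBall a 1) (v : E4) :
    R / 2 * ‖v‖ ≤ Real.sqrt (qf (gC R N 0 u) v) ∧ Real.sqrt (qf (gC R N 0 u) v) ≤ 2 * ‖v‖ := by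
  obtain ⟨-, h2, -, h4, h5⟩ := Vol_data hR hR' hN hX hY hu
  have h0 : n3 u ≠ 0 := by linarith
  have h6 := MetC_cs' h0 v
  have h7 := Vol_norm_sq v
  have h8 := qf_gC R N 0 h0 v
  obtain ⟨p, hp⟩ : ∃ p, p = ((u 1 * v 1 + u 2 * v 2 + u 3 * v 3) / n3 u) ^ 2 := ⟨_, rfl⟩
  obtain ⟨q, hq⟩ : ∃ q, q = bb R N (pX N 0 u) (pY N 0 u) / n3 u := ⟨_, rfl⟩
  have hp0 : 0 ≤ p := by rw [hp]; positivity
  rw [← hp] at h6 h8
  rw [← hq] at h4 h5 h8
  have hq0 : 0 ≤ q := by linarith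
  have hq1 : q ^ 2 ≤ 1 := by nlinarith
  have hq2 : (R / 2) ^ 2 ≤ q ^ 2 := by
    exact pow_le_pow_left₀ (by linarith) h4 2
  have hn := norm_nonneg v
  rw [h8]
  constructor
  · apply Real.le_sqrt_of_sq_le
    rw [mul_pow, h7]
    have e1 : 0 ≤ v 0 ^ 2 := sq_nonneg _
    have e2 : (R / 2) ^ 2 * (v 0 ^ 2 + v 1 ^ 2 + v 2 ^ 2 + v 3 ^ 2) ≤
        q ^ 2 * (v 0 ^ 2 + v 1 ^ 2 + v 2 ^ 2 + v 3 ^ 2) :=
      mul_le_mul_of_nonneg_right hq2 (by positivity)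
    nlinarith
  · rw [Real.sqrt_le_left (by positivity), mul_pow, h7]
    have e1 : 0 ≤ v 0 ^ 2 := sq_nonneg _
    nlinarith

/-- The parametrisation is injective on the ball. -/
theorem Vol_inj {R : ℝ} {N : ℕ∞} (hR : 0 < R) (hR' : R ≤ 1 / 8) (hN : 1 ≤ N) {a u u' : E4}
    (hX : pX N 0 a = 0) (hY : pY N 0 a = 10) (hu : u ∈ Metric.closedBall a 1)
    (hu' : u' ∈ Metric.closedBall a 1)
    (h : TauPt.mk (repA R N 0 u) = TauPt.mk (repA R N 0 u')) : u = u' := by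
  obtain ⟨h1, h2, -⟩ := Vol_data hR hR' hN hX hY hu
  obtain ⟨h1', h2', -⟩ := Vol_data hR hR' hN hX hY hu'
  rcases TauPt.mk_eq.1 h with h | h
  · exact (repA_inj hR hR' hN (AmbConn_zero_le N) (Or.inl h1') (Or.inl h1) h).symm
  · exfalso
    have k1 : pX N 0 u' = -pX N 0 u := congrArg (fun p : ℝ × ℝ × (Fin 3 → ℝ) => p.1) h
    have k2 : pY N 0 u' = pY N 0 u := congrArg (fun p : ℝ × ℝ × (Fin 3 → ℝ) => p.2.1) h
    have k3 : ∀ k : Fin 3, bb R N (pX N 0 u') (pY N 0 u') * (u' k.succ / n3 u') =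
        -(bb R N (pX N 0 u) (pY N 0 u) * (u k.succ / n3 u)) := fun k =>
      congrArg (fun p : ℝ × ℝ × (Fin 3 → ℝ) => p.2.2 k) h
    have hb := bb_pos hR hN h1
    have k4 : ∀ k : Fin 3, u' k.succ / n3 u' = -(u k.succ / n3 u) := by
      intro k
      have e := k3 k
      rw [k1, k2, bb_neg] at e
      refine mul_left_cancel₀ hb.ne' ?_
      rw [e]
      ring
    have hn : 0 < n3 u := by linarith
    have hn' : 0 < n3 u' := by linarith
    have k5 : ∀ k : Fin 3, u k.succ = n3 u * (u k.succ / n3 u) := by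
      intro k
      field_simp
    have k6 : ∀ k : Fin 3, u' k.succ = -(n3 u' * (u k.succ / n3 u)) := by
      intro k
      have e : u' k.succ = n3 u' * (u' k.succ / n3 u') := by field_simp
      rw [k4] at e
      rw [e]
      ring
    have k7 := (mk4_eta hn.ne').2
    have k8 := Vol_dist_sq u u'
    have a1 : u 1 = n3 u * (u 1 / n3 u) := k5 0
    have a2 : u 2 = n3 u * (u 2 / n3 u) := k5 1
    have a3 : u 3 = n3 u * (u 3 / n3 u) := k5 2
    have b1 : u' 1 = -(n3 u' * (u 1 / n3 u)) := k6 0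
    have b2 : u' 2 = -(n3 u' * (u 2 / n3 u)) := k6 1
    have b3 : u' 3 = -(n3 u' * (u 3 / n3 u)) := k6 2
    have k9 : (u 1 - u' 1) ^ 2 + (u 2 - u' 2) ^ 2 + (u 3 - u' 3) ^ 2 = (n3 u + n3 u') ^ 2 := by
      generalize u 1 / n3 u = x at a1 b1 k7
      generalize u 2 / n3 u = y at a2 b2 k7
      generalize u 3 / n3 u = z at a3 b3 k7
      rw [a1, a2, a3, b1, b2, b3]
      linear_combination ((n3 u + n3 u') ^ 2) * k7
    have k10 : dist u u' ≤ 2 := by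
      have e1 := dist_triangle_right u u' a
      have e2 : dist u a ≤ 1 := hu
      have e3 : dist u' a ≤ 1 := hu'
      linarith
    have k11 : dist u u' ^ 2 ≤ 4 := by
      have := dist_nonneg (x := u) (y := u')
      nlinarith
    nlinarith [sq_nonneg (u 0 - u' 0)]

theorem sp_vol (K : Core) : ∃ v : ℝ, 0 < v ∧ ∀ (N : ℕ∞) (hN : 2 ≤ N),
    ENNReal.ofReal v ≤ vol4 (sp K N hN).Pt (Metric.ball (sp K N hN).base 1) := by
  have hR := K.R_pos
  have hR' : K.R ≤ 1 / 8 := by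
    have := K.R_le
    linarith
  obtain ⟨v, hv, hvol⟩ := vol4_lower (K.R / 2) 2 1 (by positivity) (by norm_num) one_pos
  refine ⟨v, hv, fun N hN => ?_⟩
  have hN1 : 1 ≤ N := le_trans (by norm_num) hN
  have hρ := spRad_ok K N
  obtain ⟨s1, s2, s3⟩ := Classical.choose_spec (amb_nonempty (spAmb K N hN))
  have hX : pX N 0 (spPt K N hN) = 0 := s2
  have hY : pY N 0 (spPt K N hN) = 10 := s3
  have hmem : ∀ u ∈ Metric.closedBall (spPt K N hN) 1, u ∈ (spP K N hN).V (ixC K N hN 0) :=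
    fun u hu => Vol_mem hR hR' hN1 hρ hX hY hu
  have hbase : (sp K N hN).ψ (ixC K N hN 0) (spPt K N hN) = (sp K N hN).base :=
    PreP.Pre_cpsi_pos (spP K N hN) (spBase K N hN)
      (hmem _ (Metric.mem_closedBall_self zero_le_one))
  have h := hvol (sp K N hN) (ixC K N hN 0) (spPt K N hN) hmem ?_ ?_
  · rw [hbase] at h
    exact h
  · intro u hu u' hu' huu
    have h1 := (PreP.Pre_cpsi_iff (spP K N hN) (spBase K N hN) (hmem u hu) (hmem u' hu')).1 huu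
    have h2 : TauPt.mk (repA K.R N 0 u) = TauPt.mk (repA K.R N 0 u') :=
      Sum.inl_injective (Sum.inl_injective h1)
    exact Vol_inj hR hR' hN1 hX hY hu hu' h2
  · intro u hu w
    exact Vol_qf hR hR' hN1 hX hY hu w

end Pool.Agent.W_MP_654ec6
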