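import Pool.Agent.W_MP_654ec6.F.Complete
import Pool.Agent.W_MP_654ec6.G.AmbDat
import Pool.Agent.W_MP_654ec6.G.AmbFun
import Pool.Agent.W_MP_654ec6.G.PkCh
import Pool.Agent.W_MP_654ec6.G.Vol
import Pool.Agent.W_MP_654ec6_h2.ConeFin
import Pool.Agent.W_MP_654ec6_h2.Lim

/-!
# The final argument

`X` is the completion of `Sp(∞)`. The conical points `p_k` and their limit `x` are in the bad set.
-/

open scoped ContDiff Topology
open Filter Real

namespace Pool.Agent.W_MP_654ec6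

open Pool.Agent.W_MP_654ec6_h2 (exists_x exists_pk notDiscrete_of)

theorem two_le_add_two (n : ℕ) : (2 : ℕ∞) ≤ ((n + 2 : ℕ) : ℕ∞) := by
  exact_mod_cast Nat.le_add_left 2 n

/-- The convergence `Sp(n) → X`. -/
def SpConv (K : Core) : Prop :=
  ∀ (X : Type) [MetricSpace X] (e : (sp K ⊤ le_top).Pt → X), Isometry e → DenseRange e →
    PGH (fun n : ℕ => (dist : (sp K ((n + 2 : ℕ) : ℕ∞) (two_le_add_two n)).Pt →
        (sp K ((n + 2 : ℕ) : ℕ∞) (two_le_add_two n)).Pt → ℝ))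
      (fun n : ℕ => (sp K ((n + 2 : ℕ) : ℕ∞) (two_le_add_two n)).base)
      (dist : X → X → ℝ) (e (sp K ⊤ le_top).base)

theorem isRicciLimit4_completion (K : Core) (hG : SpConv K) {X : Type} [MetricSpace X]
    [CompleteSpace X] {e : (sp K ⊤ le_top).Pt → X} (he : Isometry e) (hd : DenseRange e) :
    IsRicciLimit4 X := by
  obtain ⟨v, hv, hvol⟩ := sp_vol K
  exact ⟨inferInstance, fun n => (sp K ((n + 2 : ℕ) : ℕ∞) (two_le_add_two n)).Pt,
    fun n => inferInstance, fun n => (sp K ((n + 2 : ℕ) : ℕ∞) (two_le_add_two n)).base,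
    e (sp K ⊤ le_top).base, v, hv, fun n => sp_ricci K (n + 2) (two_le_add_two n),
    fun n => hvol _ _, hG X e he hd⟩

theorem pk_mem_UB (K : Core) {k : ℕ} (hk : 1 ≤ k) {u : E4} (h0 : 0 < ‖u‖) (h1 : ‖u‖ < K.A0) :
    (sp K ⊤ le_top).ψ (pkIx K k) u ∈ spU K ⊤ le_top k := by
  rw [spU_pos K ⊤ le_top hk]
  exact Or.inl ⟨2, u, ⟨⟨hk, le_top⟩, mem_VF_top K h0 h1⟩, rfl⟩

/-- **The set of bad points of a noncollapsed Ricci limit space of dimension four need not be
discrete**, if the spaces `Sp(n)` converge. -/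
theorem notDiscrete_of_conv (K : Core) (hG : SpConv K) : NotDiscrete := by
  let X := UniformSpace.Completion (sp K ⊤ le_top).Pt
  let e : (sp K ⊤ le_top).Pt → X := fun w => (w : UniformSpace.Completion (sp K ⊤ le_top).Pt)
  have he : Isometry e := UniformSpace.Completion.coe_isometry
  have hd : DenseRange e := UniformSpace.Completion.denseRange_coe
  have hX : IsRicciLimit4 X := isRicciLimit4_completion K hG he hd
  have hlip : LocLipProp (sp K ⊤ le_top).Pt := (sp K ⊤ le_top).locLipProp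
  have hA0 := K.A0_pos
  obtain ⟨x, hx, hlim⟩ := exists_x (ambData K ⊤ le_top) (ambFun K.R_pos (by
    have := K.R_le
    linarith)) he hd
  have hpk : ∀ k : ℕ, ∃ p : X, p ∈ badSet X ∧
      (∀ u, 0 < ‖u‖ → ‖u‖ < K.A0 / 4 →
        dist p (e ((sp K ⊤ le_top).ψ (pkIx K (k + 1)) u)) = (spB K ⊤ (k + 1)).s * ‖u‖) ∧
      ∀ w, w ∉ (sp K ⊤ le_top).ψ (pkIx K (k + 1)) '' {a | 0 < ‖a‖ ∧ ‖a‖ < K.A0 / 4} →
        (spB K ⊤ (k + 1)).s * (K.A0 / 4) ≤ dist p (e w) := fun k =>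
    exists_pk he hd hlip (pkChart K (k + 1) (by omega))
  choose p hp1 hp2 hp3 using hpk
  have hs : ∀ k : ℕ, 0 < (spB K ⊤ (k + 1)).s := fun k => (spBlk K ⊤ (k + 1)).ok.blk.s_pos
  -- points of the patch near the conical point
  have hpt : ∀ (k : ℕ) (ε : ℝ), 0 < ε → ∃ u : E4, 0 < ‖u‖ ∧ ‖u‖ < K.A0 / 4 ∧
      (spB K ⊤ (k + 1)).s * ‖u‖ < ε := by
    intro k ε hε
    obtain ⟨t, ht⟩ : ∃ t, t = min (K.A0 / 8) (ε / (2 * (spB K ⊤ (k + 1)).s)) := ⟨_, rfl⟩
    have hsk := hs k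
    have ht0 : 0 < t := by
      rw [ht]
      exact lt_min (by positivity) (by positivity)
    refine ⟨t • (EuclideanSpace.single 0 1 : E4), ?_, ?_, ?_⟩
    · rw [norm_smul, Real.norm_of_nonneg ht0.le]
      simpa using ht0
    · rw [norm_smul, Real.norm_of_nonneg ht0.le]
      have h1 : t ≤ K.A0 / 8 := by
        rw [ht]
        exact min_le_left _ _
      simp
      linarith
    · rw [norm_smul, Real.norm_of_nonneg ht0.le]
      have h1 : t ≤ ε / (2 * (spB K ⊤ (k + 1)).s) := by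
        rw [ht]
        exact min_le_right _ _
      have h2 : (spB K ⊤ (k + 1)).s * t ≤ (spB K ⊤ (k + 1)).s *
          (ε / (2 * (spB K ⊤ (k + 1)).s)) := mul_le_mul_of_nonneg_left h1 hsk.le
      have h3 : (spB K ⊤ (k + 1)).s * (ε / (2 * (spB K ⊤ (k + 1)).s)) = ε / 2 := by
        field_simp
      simp
      linarith
  refine notDiscrete_of hX hx p hp1 ?_ ?_
  · intro k
    refine ⟨(spB K ⊤ (k + 1)).s * (K.A0 / 4), mul_pos (hs k) (by positivity), fun l hl => ?_⟩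
    apply le_of_forall_pos_le_add
    intro ε hε
    obtain ⟨u, h0, h1, h2⟩ := hpt l ε hε
    have h3 := hp2 l u h0 h1
    have h4 := hp3 k ((sp K ⊤ le_top).ψ (pkIx K (l + 1)) u) (by
      rintro ⟨u', hu', h5⟩
      have h6 := pk_mem_UB K (k := l + 1) (by omega) h0 (by linarith : ‖u‖ < K.A0)
      have h7 := pk_mem_UB K (k := k + 1) (by omega) hu'.1 (by linarith [hu'.2] : ‖u'‖ < K.A0)
      rw [h5] at h7
      exact (Set.disjoint_left.1 (spU_disj K ⊤ le_top (k + 1) (l + 1) (by omega))) h7 h6)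
    have h5 := dist_triangle (p k) (p l) (e ((sp K ⊤ le_top).ψ (pkIx K (l + 1)) u))
    linarith
  · rw [Metric.tendsto_atTop]
    intro ε hε
    obtain ⟨k₀, hk₀⟩ := hlim (ε / 2) (by positivity)
    refine ⟨k₀, fun k hk => ?_⟩
    obtain ⟨u, h0, h1, h2⟩ := hpt k (ε / 2) (by positivity)
    have h3 := hp2 k u h0 h1
    have h4 := hk₀ (k + 1) (by omega) _ (pk_mem_UB K (k := k + 1) (by omega) h0
      (by linarith : ‖u‖ < K.A0))
    have h5 := dist_triangle_right (p k) x (e ((sp K ⊤ le_top).ψ (pkIx K (k + 1)) u))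
    linarith

end Pool.Agent.W_MP_654ec6
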